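import Pool.Agent.Helper13.JS.St

set_option autoImplicit false

noncomputable section

namespace Pool.Agent.Helper80.JS

open Finset ArithmeticFunction Pool.Agent.Helper13.JS
open Pool.Agent.Helper15.AB (IsW Th SP SN)
open Pool.Agent.Helper60.GP (II)

theorem SP_nonneg (F : (ℕ → ℂ) → ℝ) (hF : ∀ f, 0 ≤ F f) (r : ℕ) : 0 ≤ SP F r := by
  unfold SP
  split_ifs with h
  · exact le_rfl
  · exact Finset.sum_nonneg fun _ _ => hF _

theorem Gk_nonneg (ω : ℝ → ℝ) (V : ℝ) (M : ℕ) (α : ℕ → ℝ) (k : ℕ) (f : ℕ → ℂ) :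
    0 ≤ Gk ω V M α k f := mul_nonneg (norm_nonneg _) (norm_nonneg _)

theorem Er_nonneg (ω : ℝ → ℝ) (V : ℝ) (M : ℕ) (α : ℕ → ℝ) (q : ℕ) (b : ℤ) :
    0 ≤ Er ω V M α q b := abs_nonneg _

theorem sum_cop (s : Finset ℕ) (g f : ℕ → ℂ) (r k : ℕ) (hf : ∀ n, ¬ Nat.Coprime n r → f n = 0) :
    ∑ m ∈ s.filter (fun m => Nat.Coprime m (r * k)), g m * f m =
      ∑ m ∈ s.filter (fun m => Nat.Coprime m k), g m * f m := by
  rw [Finset.sum_filter, Finset.sum_filter]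
  refine Finset.sum_congr rfl fun m _ => ?_
  by_cases hr : Nat.Coprime m r
  · have : Nat.Coprime m (r * k) ↔ Nat.Coprime m k := by
      rw [Nat.coprime_mul_iff_right]
      exact ⟨fun h => h.2, fun h => ⟨hr, h⟩⟩
    simp only [this]
  · rw [hf m hr]
    simp

theorem Gk_cop (ω : ℝ → ℝ) (V : ℝ) (M : ℕ) (α : ℕ → ℝ) (r k : ℕ) (f : ℕ → ℂ)
    (hf : ∀ n, ¬ Nat.Coprime n r → f n = 0) :
    Gk ω V M α (r * k) f = Gk ω V M α k f := by
  unfold Gk
  rw [sum_cop (Icc 1 M) (fun m => (α m : ℂ)) f r k hf,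
    sum_cop (II V) (fun n => ((Λ n * ω (Real.log (n / V)) : ℝ) : ℂ)) f r k hf]

/-- the sum with all constants -/
theorem core (ω : ℝ → ℝ) (C1 C3 C4 C5 : ℝ) (A' : ℕ) (V : ℝ) (M D R : ℕ) (α : ℕ → ℝ) (b : ℕ → ℤ)
    (hC1 : 0 < C1) (hC3 : 0 < C3) (hC4 : 0 < C4)
    (h1 : ∀ (q : ℕ) (b : ℤ), 1 ≤ q → IsCoprime b (q : ℤ) →
      Er ω V M α q b ≤ 1 / (Nat.totient q : ℝ) *
        (SN (Gk ω V M α q) q + C1 * M * Real.log V * Real.log (2 * q)))
    (h2 : StB2)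
    (h3 : R ≤ D → ∀ k : ℕ, ∑ r ∈ Ioc R D, 1 / (Nat.totient r : ℝ) * SP (Gk ω V M α k) r ≤
      C3 * Real.log V * √(M * V) * (√(M * V) / R + (1 + Real.log D) * (√M + √V) + D))
    (h4 : ∀ k : ℕ, 1 ≤ k → ∑ r ∈ Ioc 1 R, 1 / (Nat.totient r : ℝ) * SP (Gk ω V M α k) r ≤
      R * M * (V / Real.log V ^ A' + C4 * Real.log V * Real.log (2 * k)))
    (h5 : ∑ q ∈ Icc 1 D, 1 / (Nat.totient q : ℝ) ≤ C5 * (1 + Real.log D))
    (hV : 3 ≤ V) (hD : 1 ≤ D) (hb : ∀ q : ℕ, 1 ≤ q → IsCoprime (b q) (q : ℤ)) :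
    ∑ q ∈ Icc 1 D, Er ω V M α q (b q) ≤ C5 * (1 + Real.log D) *
      (R * M * (V / Real.log V ^ A' + C4 * Real.log V * Real.log (2 * D)) +
        C3 * Real.log V * √(M * V) * (√(M * V) / R + (1 + Real.log D) * (√M + √V) + D) +
        C1 * M * Real.log V * Real.log (2 * D)) := by
  have hlV : 0 < Real.log V := Real.log_pos (by linarith)
  have hlD : 0 ≤ Real.log D := Real.log_nonneg (by exact_mod_cast hD)
  have hDR : (1 : ℝ) ≤ D := by exact_mod_cast hD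
  have hl2 : ∀ k : ℕ, k ∈ Icc 1 D → Real.log (2 * k) ≤ Real.log (2 * D) ∧
      0 ≤ Real.log (2 * k) := by
    intro k hk
    rw [Finset.mem_Icc] at hk
    have hk1 : (1 : ℝ) ≤ k := by exact_mod_cast hk.1
    have hk2 : (k : ℝ) ≤ D := by exact_mod_cast hk.2
    exact ⟨Real.log_le_log (by positivity) (by linarith), Real.log_nonneg (by linarith)⟩
  set S : ℝ := R * M * (V / Real.log V ^ A' + C4 * Real.log V * Real.log (2 * D)) with hS
  set T : ℝ := C3 * Real.log V * √(M * V) * (√(M * V) / R + (1 + Real.log D) * (√M + √V) + D)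
    with hT
  have hTnn : 0 ≤ T := by rw [hT]; positivity
  have hl2D : 0 ≤ Real.log (2 * D) := Real.log_nonneg (by linarith)
  have hSnn : 0 ≤ S := by rw [hS]; positivity
  have hstep1 : ∑ q ∈ Icc 1 D, Er ω V M α q (b q) ≤
      ∑ q ∈ Icc 1 D, 1 / (Nat.totient q : ℝ) * SN (Gk ω V M α q) q +
      ∑ q ∈ Icc 1 D, 1 / (Nat.totient q : ℝ) * (C1 * M * Real.log V * Real.log (2 * D)) := by
    rw [← Finset.sum_add_distrib]
    refine Finset.sum_le_sum fun q hq => ?_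
    have hq1 := (Finset.mem_Icc.1 hq).1
    refine (h1 q (b q) hq1 (hb q hq1)).trans ?_
    rw [mul_add]
    gcongr
    exact (Finset.mem_Icc.1 hq).2
  have hstep2 : ∑ q ∈ Icc 1 D, 1 / (Nat.totient q : ℝ) * SN (Gk ω V M α q) q ≤
      ∑ k ∈ Icc 1 D, 1 / (Nat.totient k : ℝ) * (S + T) := by
    refine (h2 (Gk ω V M α) D (fun k f => Gk_nonneg ω V M α k f)
      (fun r k f hf => Gk_cop ω V M α r k f hf)).trans ?_
    refine Finset.sum_le_sum fun k hk => ?_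
    have hk1 := (Finset.mem_Icc.1 hk).1
    gcongr
    have hnn : ∀ r : ℕ, 0 ≤ 1 / (Nat.totient r : ℝ) * SP (Gk ω V M α k) r := fun r =>
      mul_nonneg (by positivity) (SP_nonneg _ (fun f => Gk_nonneg ω V M α k f) r)
    have hsub : Ioc 1 D ⊆ Ioc 1 R ∪ Ioc R D := by
      intro r hr
      rw [Finset.mem_union, Finset.mem_Ioc, Finset.mem_Ioc]
      rw [Finset.mem_Ioc] at hr
      rcases le_or_gt r R with h | h
      · exact Or.inl ⟨hr.1, h⟩
      · exact Or.inr ⟨h, hr.2⟩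
    have hdis : Disjoint (Ioc 1 R) (Ioc R D) := by
      rw [Finset.disjoint_left]
      intro r hr hr'
      rw [Finset.mem_Ioc] at hr hr'
      omega
    calc ∑ r ∈ Ioc 1 D, 1 / (Nat.totient r : ℝ) * SP (Gk ω V M α k) r
        ≤ ∑ r ∈ Ioc 1 R ∪ Ioc R D, 1 / (Nat.totient r : ℝ) * SP (Gk ω V M α k) r :=
          Finset.sum_le_sum_of_subset_of_nonneg hsub fun r _ _ => hnn r
      _ = ∑ r ∈ Ioc 1 R, 1 / (Nat.totient r : ℝ) * SP (Gk ω V M α k) r +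
          ∑ r ∈ Ioc R D, 1 / (Nat.totient r : ℝ) * SP (Gk ω V M α k) r :=
          Finset.sum_union hdis
      _ ≤ S + T := by
          apply add_le_add
          · refine (h4 k hk1).trans ?_
            rw [hS]
            gcongr
            exact (Finset.mem_Icc.1 hk).2
          · rcases le_or_gt R D with h | h
            · exact h3 h k
            · rw [Finset.Ioc_eq_empty (by omega), Finset.sum_empty]
              exact hTnn
  calc ∑ q ∈ Icc 1 D, Er ω V M α q (b q)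
      ≤ ∑ k ∈ Icc 1 D, 1 / (Nat.totient k : ℝ) * (S + T) +
        ∑ q ∈ Icc 1 D, 1 / (Nat.totient q : ℝ) * (C1 * M * Real.log V * Real.log (2 * D)) :=
        hstep1.trans (by gcongr)
    _ = (∑ k ∈ Icc 1 D, 1 / (Nat.totient k : ℝ)) *
        (S + T + C1 * M * Real.log V * Real.log (2 * D)) := by
        rw [← Finset.sum_mul, ← Finset.sum_mul]; ring
    _ ≤ C5 * (1 + Real.log D) * (S + T + C1 * M * Real.log V * Real.log (2 * D)) := by
        gcongr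

/-- the numerical estimate -/
theorem numer (C1 C3 C4 C5 κ₁ θ : ℝ) (A : ℕ) (hC1 : 0 < C1) (hC3 : 0 < C3) (hC4 : 0 < C4)
    (hC5 : 0 < C5) (hκ : 0 < κ₁) (hθ0 : 1 / 4 ≤ θ) (hθ : θ < 1 / 2) :
    ∃ X₀ : ℝ, 3 ≤ X₀ ∧ ∀ (X V : ℝ) (M D R : ℕ), X₀ ≤ X → X ^ κ₁ ≤ V → V ≤ X ^ (1 - κ₁) →
      3 ≤ V → (M : ℝ) * V ≤ X → 1 ≤ D → (D : ℝ) ≤ X ^ θ → (R : ℝ) ≤ Real.log V ^ (A + 3) →
      Real.log V ^ (A + 3) ≤ 2 * R → 1 ≤ R →
      C5 * (1 + Real.log D) *
      (R * M * (V / Real.log V ^ (A + 2 + (A + 3)) + C4 * Real.log V * Real.log (2 * D)) +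
        C3 * Real.log V * √(M * V) * (√(M * V) / R + (1 + Real.log D) * (√M + √V) + D) +
        C1 * M * Real.log V * Real.log (2 * D)) ≤ X / Real.log X ^ A := by
  set δ : ℝ := min (κ₁ / 2) (1 / 2 - θ) with hδ
  have hδ0 : 0 < δ := lt_min (by linarith) (by linarith)
  have hδ1 : δ ≤ κ₁ / 2 := min_le_left _ _
  have hδ2 : δ ≤ 1 / 2 - θ := min_le_right _ _
  set K1 : ℝ := 1 / κ₁ ^ (A + 2) + 2 * C3 / κ₁ ^ (A + 3) with hK1
  set K2 : ℝ := 2 * C4 + 4 * C3 + C3 + 2 * C1 with hK2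
  have hK1p : 0 < K1 := by rw [hK1]; positivity
  have hK2p : 0 < K2 := by rw [hK2]; positivity
  have hev : ∀ᶠ X : ℝ in Filter.atTop, 3 ≤ X ∧ 1 ≤ Real.log X ∧ 4 * C5 * K1 ≤ Real.log X ∧
      4 * C5 * K2 * Real.log X ^ (A + 3 + 3 + A) ≤ X ^ δ := by
    have e1 : ∀ᶠ X : ℝ in Filter.atTop, (3 : ℝ) ≤ X := Filter.eventually_ge_atTop 3
    have e2 := Real.tendsto_log_atTop.eventually (Filter.eventually_ge_atTop (1 : ℝ))
    have e3 := Real.tendsto_log_atTop.eventually (Filter.eventually_ge_atTop (4 * C5 * K1))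
    have e4 := (isLittleO_log_rpow_rpow_atTop ((A + 3 + 3 + A : ℕ) : ℝ) hδ0).bound
      (show (0 : ℝ) < 1 / (4 * C5 * K2) by positivity)
    filter_upwards [e1, e2, e3, e4] with X h1 h2 h3 h4
    refine ⟨h1, h2, h3, ?_⟩
    rw [Real.norm_of_nonneg (by positivity), Real.norm_of_nonneg (by positivity),
      Real.rpow_natCast] at h4
    rw [div_mul_eq_mul_div, one_mul, le_div_iff₀ (by positivity)] at h4
    linarith
  obtain ⟨X₀, hX₀⟩ := Filter.eventually_atTop.1 hev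
  refine ⟨max X₀ 3, le_max_right _ _, ?_⟩
  intro X V M D R hX hV1 hV2 hV3 hMV hD1 hD2 hR1 hR2 hR0
  obtain ⟨hX3, hL1, hK1L, hK2L⟩ := hX₀ X ((le_max_left _ _).trans hX)
  set L : ℝ := Real.log X with hL
  set l : ℝ := Real.log V with hl
  have hXp : 0 < X := by linarith
  have hX1 : 1 ≤ X := by linarith
  have hVp : 0 < V := by linarith
  have hl1 : 1 ≤ l := by
    rw [hl, Real.le_log_iff_exp_le hVp]
    have := Real.exp_one_lt_d9
    linarith
  have hVX : V ≤ X := hV2.trans (by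
    calc X ^ (1 - κ₁) ≤ X ^ (1 : ℝ) := Real.rpow_le_rpow_of_exponent_le hX1 (by linarith)
      _ = X := Real.rpow_one X)
  have hlL : l ≤ L := Real.log_le_log hVp hVX
  have hκl : κ₁ * L ≤ l := by
    have := Real.log_le_log (by positivity) hV1
    rwa [Real.log_rpow hXp] at this
  have hDR : (1 : ℝ) ≤ D := by exact_mod_cast hD1
  have hlogD : Real.log D ≤ L := by
    have h := Real.log_le_log (by linarith) hD2
    rw [Real.log_rpow hXp] at h
    have : θ * L ≤ 1 * L := by gcongr; linarith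
    linarith
  have hlogD0 : 0 ≤ Real.log D := Real.log_nonneg hDR
  have h1D : 1 + Real.log D ≤ 2 * L := by linarith
  have hlog2D : Real.log (2 * D) ≤ 2 * L := by
    rw [Real.log_mul (by norm_num) (by positivity)]
    have := Real.log_two_lt_d9
    linarith
  have hlog2D0 : 0 ≤ Real.log (2 * D) := Real.log_nonneg (by linarith)
  have hM0 : (0 : ℝ) ≤ M := Nat.cast_nonneg M
  have hR0' : (1 : ℝ) ≤ R := by exact_mod_cast hR0
  set Y : ℝ := X ^ (1 - δ) with hY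
  have hYp : 0 < Y := Real.rpow_pos_of_pos hXp _
  have hMX : (M : ℝ) ≤ X ^ (1 - κ₁) := by
    rw [Real.rpow_sub hXp, Real.rpow_one, le_div_iff₀ (by positivity)]
    calc (M : ℝ) * X ^ κ₁ ≤ M * V := by gcongr
      _ ≤ X := hMV
  have hMY : (M : ℝ) ≤ Y := hMX.trans (Real.rpow_le_rpow_of_exponent_le hX1 (by linarith))
  have hsq : √((M : ℝ) * V) ≤ √X := Real.sqrt_le_sqrt hMV
  have hsX : √X = X ^ (1 / 2 : ℝ) := Real.sqrt_eq_rpow X
  have hsM : √(M : ℝ) ≤ X ^ ((1 - κ₁) / 2) := by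
    calc √(M : ℝ) ≤ √(X ^ (1 - κ₁)) := Real.sqrt_le_sqrt hMX
      _ = X ^ ((1 - κ₁) / 2) := by
        rw [Real.sqrt_eq_rpow, ← Real.rpow_mul hXp.le]; congr 1; ring
  have hsV : √V ≤ X ^ ((1 - κ₁) / 2) := by
    calc √V ≤ √(X ^ (1 - κ₁)) := Real.sqrt_le_sqrt hV2
      _ = X ^ ((1 - κ₁) / 2) := by
        rw [Real.sqrt_eq_rpow, ← Real.rpow_mul hXp.le]; congr 1; ring
  have hY1 : √X * X ^ ((1 - κ₁) / 2) ≤ Y := by
    rw [hsX, ← Real.rpow_add hXp]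
    exact Real.rpow_le_rpow_of_exponent_le hX1 (by linarith)
  have hY2 : √X * X ^ θ ≤ Y := by
    rw [hsX, ← Real.rpow_add hXp]
    exact Real.rpow_le_rpow_of_exponent_le hX1 (by linarith)
  -- the pieces
  have hLp : 0 < L := by linarith
  have hlp : 0 < l := by linarith
  have hlB : l ^ (A + 3) ≤ L ^ (A + 3) := pow_le_pow_left₀ hlp.le hlL _
  have hP1 : (R : ℝ) * M * (V / l ^ (A + 2 + (A + 3))) ≤ X / (κ₁ ^ (A + 2) * L ^ (A + 2)) := by
    calc (R : ℝ) * M * (V / l ^ (A + 2 + (A + 3)))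
        = R * (M * V) / l ^ (A + 2 + (A + 3)) := by ring
      _ ≤ l ^ (A + 3) * X / l ^ (A + 2 + (A + 3)) := by gcongr
      _ = X / l ^ (A + 2) := by rw [pow_add l (A + 2) (A + 3)]; field_simp
      _ ≤ X / (κ₁ * L) ^ (A + 2) := by gcongr
      _ = _ := by rw [mul_pow]
  have hP2 : (R : ℝ) * M * (C4 * l * Real.log (2 * D)) ≤ 2 * C4 * L ^ (A + 3 + 2) * Y := by
    calc (R : ℝ) * M * (C4 * l * Real.log (2 * D))
        ≤ L ^ (A + 3) * Y * (C4 * L * (2 * L)) := by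
          have : (R : ℝ) ≤ L ^ (A + 3) := hR1.trans hlB
          gcongr
      _ = 2 * C4 * L ^ (A + 3 + 2) * Y := by ring
  have hP3 : C3 * l * √(M * V) * (√(M * V) / R) ≤
      2 * C3 * (X / (κ₁ ^ (A + 3) * L ^ (A + 2))) := by
    calc C3 * l * √(M * V) * (√(M * V) / R) = C3 * l * (√(M * V) * √(M * V)) / R := by ring
      _ = C3 * l * (M * V) / R := by rw [Real.mul_self_sqrt (by positivity)]
      _ ≤ C3 * L * X / (l ^ (A + 3) / 2) := by
          gcongr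
          linarith
      _ ≤ C3 * L * X / ((κ₁ * L) ^ (A + 3) / 2) := by gcongr
      _ = 2 * C3 * (X / (κ₁ ^ (A + 3) * L ^ (A + 2))) := by
          rw [mul_pow, pow_succ L (A + 2)]; field_simp
  have hP4 : C3 * l * √(M * V) * ((1 + Real.log D) * (√M + √V)) ≤ 4 * C3 * L ^ 2 * Y := by
    calc C3 * l * √(M * V) * ((1 + Real.log D) * (√M + √V))
        ≤ C3 * L * √X * (2 * L * (X ^ ((1 - κ₁) / 2) + X ^ ((1 - κ₁) / 2))) := by gcongr
      _ = 4 * C3 * L ^ 2 * (√X * X ^ ((1 - κ₁) / 2)) := by ring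
      _ ≤ 4 * C3 * L ^ 2 * Y := by gcongr
  have hP5 : C3 * l * √(M * V) * D ≤ C3 * L * Y := by
    calc C3 * l * √(M * V) * D ≤ C3 * L * √X * X ^ θ := by gcongr
      _ = C3 * L * (√X * X ^ θ) := by ring
      _ ≤ C3 * L * Y := by gcongr
  have hP6 : C1 * M * l * Real.log (2 * D) ≤ 2 * C1 * L ^ 2 * Y := by
    calc C1 * M * l * Real.log (2 * D) ≤ C1 * Y * L * (2 * L) := by gcongr
      _ = _ := by ring
  have hLpow : ∀ j : ℕ, j ≤ A + 3 + 2 → L ^ j ≤ L ^ (A + 3 + 2) := fun j hj =>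
    pow_le_pow_right₀ hL1 hj
  have hsum : (R * M * (V / l ^ (A + 2 + (A + 3)) + C4 * l * Real.log (2 * D)) +
        C3 * l * √(M * V) * (√(M * V) / R + (1 + Real.log D) * (√M + √V) + D) +
        C1 * M * l * Real.log (2 * D)) ≤ K1 * (X / L ^ (A + 2)) + K2 * L ^ (A + 3 + 2) * Y := by
    have e1 : K1 * (X / L ^ (A + 2)) = X / (κ₁ ^ (A + 2) * L ^ (A + 2)) +
        2 * C3 * (X / (κ₁ ^ (A + 3) * L ^ (A + 2))) := by
      rw [hK1]; field_simp
    have e2 : K2 * L ^ (A + 3 + 2) * Y = 2 * C4 * L ^ (A + 3 + 2) * Y +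
        4 * C3 * L ^ (A + 3 + 2) * Y + C3 * L ^ (A + 3 + 2) * Y +
        2 * C1 * L ^ (A + 3 + 2) * Y := by rw [hK2]; ring
    have f4 : 4 * C3 * L ^ 2 * Y ≤ 4 * C3 * L ^ (A + 3 + 2) * Y := by
      gcongr
      omega
    have f5 : C3 * L * Y ≤ C3 * L ^ (A + 3 + 2) * Y := by
      have := hLpow 1 (by omega)
      rw [pow_one] at this
      gcongr
    have f6 : 2 * C1 * L ^ 2 * Y ≤ 2 * C1 * L ^ (A + 3 + 2) * Y := by
      gcongr
      omega
    rw [e1, e2]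
    calc _ = (R : ℝ) * M * (V / l ^ (A + 2 + (A + 3))) + R * M * (C4 * l * Real.log (2 * D)) +
          C3 * l * √(M * V) * (√(M * V) / R) +
          C3 * l * √(M * V) * ((1 + Real.log D) * (√M + √V)) + C3 * l * √(M * V) * D +
          C1 * M * l * Real.log (2 * D) := by ring
      _ ≤ _ := by linarith
  have hXY : Y * X ^ δ = X := by
    rw [hY, ← Real.rpow_add hXp]
    simp
  calc C5 * (1 + Real.log D) * (R * M * (V / l ^ (A + 2 + (A + 3)) + C4 * l * Real.log (2 * D)) +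
        C3 * l * √(M * V) * (√(M * V) / R + (1 + Real.log D) * (√M + √V) + D) +
        C1 * M * l * Real.log (2 * D))
      ≤ C5 * (2 * L) * (K1 * (X / L ^ (A + 2)) + K2 * L ^ (A + 3 + 2) * Y) := by
        gcongr
    _ = (4 * C5 * K1) / L * (X / L ^ A) / 2 +
        (4 * C5 * K2 * L ^ (A + 3 + 3 + A)) * Y / L ^ A / 2 := by
        field_simp
        ring
    _ ≤ 1 * (X / L ^ A) / 2 + X ^ δ * Y / L ^ A / 2 := by
        gcongr
        rw [div_le_one hLp]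
        exact hK1L
    _ = X / L ^ A := by
        rw [mul_comm (X ^ δ) Y, hXY]
        ring

theorem hBB (hB1 : StB1) (hB2 : StB2) (hB3 : StB3) (hB4 : StB4)
    (hPH : Pool.Agent.Helper15.AB.StPH) : StBB := by
  intro ω hω A κ₁ θ hκ hθ
  obtain ⟨C1, hC1, h1⟩ := hB1 ω hω
  obtain ⟨C3, hC3, h3⟩ := hB3 ω hω
  obtain ⟨C4, hC4, h4'⟩ := hB4 ω hω
  obtain ⟨V₀, hV₀, h4⟩ := h4' (A + 2 + (A + 3)) (A + 3)
  obtain ⟨C5, hC5, h5⟩ := hPH
  set θ' : ℝ := max θ (1 / 4) with hθ'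
  have hθ1 : θ' < 1 / 2 := max_lt hθ (by norm_num)
  have hθ2 : 1 / 4 ≤ θ' := le_max_right _ _
  obtain ⟨X₀, hX₀3, hnum⟩ := numer C1 C3 C4 C5 κ₁ θ' A hC1 hC3 hC4 hC5 hκ hθ2 hθ1
  have hev : ∀ᶠ X : ℝ in Filter.atTop, V₀ ≤ X ^ κ₁ :=
    (tendsto_rpow_atTop hκ).eventually (Filter.eventually_ge_atTop V₀)
  obtain ⟨X₁, hX₁⟩ := Filter.eventually_atTop.1 hev
  refine ⟨max X₀ X₁, (by linarith [le_max_left X₀ X₁] : (2 : ℝ) ≤ max X₀ X₁), ?_⟩
  intro X V α b hX hV1 hV2 hα hb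
  have hXX0 : X₀ ≤ X := (le_max_left _ _).trans hX
  have hX3 : 3 ≤ X := hX₀3.trans hXX0
  have hXp : 0 < X := by linarith
  have hVV : V₀ ≤ V := (hX₁ X ((le_max_right _ _).trans hX)).trans hV1
  have hV3 : 3 ≤ V := hV₀.trans hVV
  have hVp : 0 < V := by linarith
  set M : ℕ := ⌊X / V⌋₊ with hM
  have hMV : (M : ℝ) * V ≤ X := by
    have := Nat.floor_le (show 0 ≤ X / V by positivity)
    rw [← le_div_iff₀ hVp]
    exact this
  have hM1 : 1 ≤ M := by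
    rw [hM, Nat.one_le_floor_iff, le_div_iff₀ hVp, one_mul]
    calc V ≤ X ^ (1 - κ₁) := hV2
      _ ≤ X ^ (1 : ℝ) := Real.rpow_le_rpow_of_exponent_le (by linarith) (by linarith)
      _ = X := Real.rpow_one X
  set D : ℕ := ⌊X ^ θ'⌋₊ with hD
  have hD1 : 1 ≤ D := by
    rw [hD, Nat.one_le_floor_iff]
    exact Real.one_le_rpow (by linarith) (by linarith)
  have hD2 : (D : ℝ) ≤ X ^ θ' := Nat.floor_le (by positivity)
  set R : ℕ := ⌊Real.log V ^ (A + 3)⌋₊ with hR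
  have hlV : 1 ≤ Real.log V := by
    rw [Real.le_log_iff_exp_le hVp]
    have := Real.exp_one_lt_d9
    linarith
  have hpow : 1 ≤ Real.log V ^ (A + 3) := one_le_pow₀ hlV
  have hR1 : 1 ≤ R := by
    rw [hR, Nat.one_le_floor_iff]
    exact hpow
  have hR2 : (R : ℝ) ≤ Real.log V ^ (A + 3) := Nat.floor_le (by positivity)
  have hR3 : Real.log V ^ (A + 3) ≤ 2 * R := by
    have h := Nat.lt_floor_add_one (Real.log V ^ (A + 3))
    rw [← hR] at h
    have : (1 : ℝ) ≤ R := by exact_mod_cast hR1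
    linarith
  have hmono : ∑ q ∈ Icc 1 ⌊X ^ θ⌋₊, Er ω V M α q (b q) ≤
      ∑ q ∈ Icc 1 D, Er ω V M α q (b q) := by
    refine Finset.sum_le_sum_of_subset_of_nonneg ?_ fun q _ _ => Er_nonneg _ _ _ _ _ _
    refine Finset.Icc_subset_Icc_right ?_
    refine Nat.floor_le_floor ?_
    exact Real.rpow_le_rpow_of_exponent_le (by linarith) (le_max_left _ _)
  refine hmono.trans ?_
  refine (core ω C1 C3 C4 C5 (A + 2 + (A + 3)) V M D R α b hC1 hC3 hC4
    (fun q b hq hbq => h1 V M q α b hV3 hq hα hbq) hB2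
    (fun hRD k => h3 V M R D k α hV3 hM1 hR1 hRD hα)
    (fun k hk => h4 V M R k α hVV hk hR2 hα) ?_ hV3 hD1 hb).trans ?_
  · have h := h5 D 1 hD1 le_rfl
    simpa using h
  · exact hnum X V M D R hXX0 hV1 hV2 hV3 hMV hD1 hD2 hR2 hR3 hR1

end Pool.Agent.Helper80.JS
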